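import Mathlib
import Pool.Agent.H28.CheinDefs
import Pool.Agent.H28.CheinProof

namespace Pool.Agent.Results.MP_0edd48_al.NontrivialForAll

open Pool.Agent.H28.CheinDefs Pool.Agent.H28.CheinProof

/-- For every `n ≥ 3` the intersection `CBar n ⊓ T n` is nontrivial; it contains the nontrivial
elements `[t, [t, b]]`, `t = b⁻¹ a`, `a = K_{ijk}`, `b = K_{jik}`, `i < j < k`. -/
theorem result : (∀ n : ℕ, 3 ≤ n → CBar n ⊓ T n ≠ ⊥) ∧
    ∀ (n : ℕ) (i j k : Fin n), i < j → j < k → ∀ a b : IA n, IsKK i j k a.1 → IsKK j i k b.1 →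
      cm (b⁻¹ * a) (cm (b⁻¹ * a) b) ∈ CBar n ⊓ T n ∧ cm (b⁻¹ * a) (cm (b⁻¹ * a) b) ≠ 1 := by
  refine ⟨fun n hn hbot => ?_, fun n i j k hij hjk a b ha hb => main n i j k hij hjk a b ha hb⟩
  have h01 : (⟨0, by omega⟩ : Fin n) < ⟨1, by omega⟩ := by simp
  have h12 : (⟨1, by omega⟩ : Fin n) < ⟨2, by omega⟩ := by simp
  obtain ⟨a, ha⟩ := exists_kk n ⟨0, by omega⟩ ⟨1, by omega⟩ ⟨2, by omega⟩ h01.ne'
    (h01.trans h12).ne'
  obtain ⟨b, hb⟩ := exists_kk n ⟨1, by omega⟩ ⟨0, by omega⟩ ⟨2, by omega⟩ h01.ne h12.ne'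
  obtain ⟨h1, h2⟩ := main n _ _ _ h01 h12 a b ha hb
  apply h2
  rw [← Subgroup.mem_bot, ← hbot]
  exact h1

end Pool.Agent.Results.MP_0edd48_al.NontrivialForAll
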